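import Pool.Agent.W428.MOT.Stm
import Pool.Agent.H628R4.TP.LocDefs

/-!
# Project NM: statements of the parts (nothing is proved here)

The naive local motivic zeta function of `f = x ^ A * (∑_j c_j x ^ m_j) ^ e` at the origin, the
exponent vectors `m_j` affinely independent, and the local Bernstein-Sato polynomial at the origin.
-/

set_option autoImplicit false

namespace Pool.Agent.W749.NM

open MvPolynomial
open Pool.Agent.W428.MOT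
open Pool.Agent.W426.SM (AffInd gord ford IsRay face ff aff)
open Pool.Agent.H628R4.TP (IsLocalBFunction weylS)

/-! ### Root side -/

/-- The local relation with a polynomial unit at the origin (as in `Pool.Agent.W425.SL`). -/
def IsUnitB {n : ℕ} (f : MvPolynomial (Fin n) ℂ) (b : Polynomial ℂ) : Prop :=
  ∃ (a : MvPolynomial (Fin n) ℂ) (P : ℕ →₀ weylS (Fin n)), constantCoeff a = 1 ∧
    ∀ s : ℕ, C (b.eval (s : ℂ)) * a * f ^ s =
    P.sum fun m Q => ((s : ℂ) ^ m) • (Q : Module.End ℂ (MvPolynomial (Fin n) ℂ)) (f ^ (s + 1))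

/-- The local functional equation in terms of the exponents. -/
def Ident {n k : ℕ} (A : Fin n → ℕ) (m : Fin k → Fin n → ℕ) (e : ℕ) (b : Polynomial ℂ)
    {L' L : ℕ} (ac : Fin L' → ℂ) (γ : Fin L' → Fin k → ℤ)
    (q : Fin L → Polynomial ℂ) (ω : Fin L → Fin k → ℤ) (α β : Fin L → Fin n → ℕ) : Prop :=
  (∀ l, ∑ j, γ l j = 0) ∧ (∀ l i, 0 ≤ ∑ j, γ l j * (m j i : ℤ)) ∧
  (∀ l, ∃ i, 0 < ∑ j, γ l j * (m j i : ℤ)) ∧
  (∀ l, ∑ j, ω l j = -(e : ℤ)) ∧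
  (∀ l i, (β l i : ℤ) - α l i = -(A i : ℤ) + ∑ j, ω l j * m j i) ∧
  ∀ t : Fin k → ℂ, (∀ (j : Fin k) (r : ℕ), t j ≠ -((r : ℂ) + 1)) →
    b.eval ((∑ j, t j) / e) * (1 + ∑ l, ac l * ∏ j, ff (γ l j) (t j)) =
      ∑ l, (q l).eval ((∑ j, t j) / e) * (∏ r ∈ Finset.range e, ((∑ j, t j) + (r + 1))) *
        (∏ j, ff (ω l j) (t j)) *
        ∏ i, ∏ r ∈ Finset.range (α l i),
          ((∑ j, t j) / e * A i + ∑ j, t j * m j i - ((β l i : ℂ) - α l i) - r)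

/-- (RAL) the local functional equation in terms of the exponents. -/
def S_RAL : Prop :=
  ∀ {n k : ℕ} (A : Fin n → ℕ) (m : Fin k → Fin n → ℕ) (c : Fin k → ℂ) (e : ℕ),
    AffInd m → (∀ j, c j ≠ 0) → 0 < k → 0 < e → ∀ b : Polynomial ℂ, IsUnitB (sp A m c e) b →
    ∃ (L' L : ℕ) (ac : Fin L' → ℂ) (γ : Fin L' → Fin k → ℤ) (q : Fin L → Polynomial ℂ)
      (ω : Fin L → Fin k → ℤ) (α β : Fin L → Fin n → ℕ), Ident A m e b ac γ q ω α β

/-- (RCW) no-residue lemma with two weights. -/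
def S_RCW : Prop :=
  ∀ (B : Type) [Fintype B] (η η' p : B → ℝ) (β : Polynomial ℂ) {L : ℕ} (M : Fin L → ℕ)
    (P : Fin L → MvPolynomial B ℂ) (a : (l : Fin L) → Fin (M l) → ℝ)
    (ℓ : (l : Fin L) → Fin (M l) → B → ℝ) (ω : Fin L → B → ℝ),
    (∀ b, 0 < η' b) → (∀ b, 0 < p b) → (∀ l, ∑ b, η' b * ω l b < 0) →
    (∀ l q, a l q ≠ 0 ∨ (0 < ∑ b, ℓ l q b * p b ∧ 0 ≤ ∑ b, ℓ l q b * ω l b)) →
    (∃ ε₀ : ℝ, 0 < ε₀ ∧ ∀ ε : ℝ, 0 < ε → ε < ε₀ → ∀ y : B → ℝ,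
      β.eval (∑ b, (η b : ℂ) * (((ε * p b : ℝ) : ℂ) + y b * Complex.I)) /
          ∏ b, (((ε * p b : ℝ) : ℂ) + y b * Complex.I) =
        ∑ l, MvPolynomial.eval (fun b => ((ε * p b : ℝ) : ℂ) + y b * Complex.I) (P l) /
          ∏ q, aff (a l q) (ℓ l q) (fun b => ((ε * p b : ℝ) : ℂ) + y b * Complex.I)) →
    β.eval 0 = 0

/-- `a` spans a ray relative to the monomials in `F`. -/
def RelRay {n k : ℕ} (m : Fin k → Fin n → ℕ) (a : Fin n → ℕ) (F : Finset (Fin k)) : Prop :=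
  a ≠ 0 ∧ F.Nonempty ∧ (∀ j ∈ F, face m a j) ∧
  ∀ w : Fin n → ℚ, (∀ i, a i = 0 → w i = 0) →
    (∀ j ∈ F, ∀ j' ∈ F, ∑ i, w i * m j i = ∑ i, w i * m j' i) → ∃ ρ : ℚ, ∀ i, w i = ρ * a i

/-- (CHAMBER) a chamber of the open orthant at a ray. -/
def S_Chamber : Prop :=
  ∀ {n k : ℕ} (m : Fin k → Fin n → ℕ) (a : Fin n → ℕ), 0 < k → IsRay m a →
    ∃ u : Fin n → ℕ, (∀ i, 0 < u i) ∧ RelRay m a (amin m u)

/-- the coordinates: the variables in the support of `a` and the monomials not in `F` -/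
abbrev BF {n k : ℕ} (a : Fin n → ℕ) (F : Finset (Fin k)) : Type :=
  {i : Fin n // a i ≠ 0} ⊕ {j : Fin k // j ∉ F}

/-- (RLL) the linear algebra of a relative ray. -/
def S_RLL : Prop :=
  ∀ {n k : ℕ} (A : Fin n → ℕ) (m : Fin k → Fin n → ℕ) (e : ℕ) (a : Fin n → ℕ)
    (F : Finset (Fin k)), 0 < e → (∀ i, A i ≠ 0 ∨ ∀ j, m j i ≠ 1) →
    RelRay m a F → 0 < ford A m e a →
    (∃ i₀, A i₀ ≠ 0 ∧ (∃ j, m j i₀ = 0) ∧ (∑ i, a i) * A i₀ = ford A m e a) ∨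
    ∃ (t₀ : Fin k → ℝ) (Λ : Fin k → BF a F → ℝ) (p : BF a F → ℝ),
      (∀ b, 0 < p b) ∧
      (∀ j, j ∉ F → t₀ j = 0) ∧
      (∀ j (h : j ∉ F) b, Λ j b = if b = Sum.inr ⟨j, h⟩ then -1 else 0) ∧
      (∀ i, a i ≠ 0 → (∑ j, t₀ j) / e * A i + ∑ j, t₀ j * m j i = -1) ∧
      (∀ i (h : a i ≠ 0) b, (∑ j, Λ j b) / e * A i + ∑ j, Λ j b * m j i =
        if b = Sum.inl ⟨i, h⟩ then 1 else 0) ∧
      (∀ j, j ∈ F → (∃ r : ℕ, t₀ j = -((r : ℝ) + 1)) →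
        (∑ b, Λ j b * p b < 0) ∧
        ∀ ω : Fin k → ℝ,
          ∑ i : {i : Fin n // a i ≠ 0}, Λ j (Sum.inl i) *
              ((∑ j', ω j') / e * A i + ∑ j', ω j' * m j' i) +
            ∑ l : {j : Fin k // j ∉ F}, Λ j (Sum.inr l) * (- ω l) = ω j)

/-- (RCORE) the contour argument. -/
def S_RCore : Prop :=
  ∀ {n k : ℕ} (A : Fin n → ℕ) (m : Fin k → Fin n → ℕ) (e : ℕ) (a u : Fin n → ℕ), 0 < e →
    (∀ i, 0 < u i) → RelRay m a (amin m u) → 0 < ford A m e a →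
    ∀ (t₀ : Fin k → ℝ) (Λ : Fin k → BF a (amin m u) → ℝ) (p : BF a (amin m u) → ℝ),
      (∀ b, 0 < p b) →
      (∀ j, j ∉ amin m u → t₀ j = 0) →
      (∀ j (h : j ∉ amin m u) b, Λ j b = if b = Sum.inr ⟨j, h⟩ then -1 else 0) →
      (∀ i, a i ≠ 0 → (∑ j, t₀ j) / e * A i + ∑ j, t₀ j * m j i = -1) →
      (∀ i (h : a i ≠ 0) b, (∑ j, Λ j b) / e * A i + ∑ j, Λ j b * m j i =
        if b = Sum.inl ⟨i, h⟩ then 1 else 0) →
      (∀ j, j ∈ amin m u → (∃ r : ℕ, t₀ j = -((r : ℝ) + 1)) →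
        (∑ b, Λ j b * p b < 0) ∧
        ∀ ω : Fin k → ℝ,
          ∑ i : {i : Fin n // a i ≠ 0}, Λ j (Sum.inl i) *
              ((∑ j', ω j') / e * A i + ∑ j', ω j' * m j' i) +
            ∑ l : {j : Fin k // j ∉ amin m u}, Λ j (Sum.inr l) * (- ω l) = ω j) →
    ∀ (b : Polynomial ℂ) {L' L : ℕ} (ac : Fin L' → ℂ) (γ : Fin L' → Fin k → ℤ)
      (q : Fin L → Polynomial ℂ) (ω : Fin L → Fin k → ℤ) (α β : Fin L → Fin n → ℕ),
      Ident A m e b ac γ q ω α β →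
      b.eval (-(((∑ i, a i : ℕ) : ℂ) / ford A m e a)) = 0

/-- (COORD) the root given by a factor `x_i ^ A_i`. -/
def S_Coord : Prop :=
  ∀ {n k : ℕ} (A : Fin n → ℕ) (m : Fin k → Fin n → ℕ) (e : ℕ) (b : Polynomial ℂ) {L' L : ℕ}
    (ac : Fin L' → ℂ) (γ : Fin L' → Fin k → ℤ)
    (q : Fin L → Polynomial ℂ) (ω : Fin L → Fin k → ℤ) (α β : Fin L → Fin n → ℕ), 0 < e →
    Ident A m e b ac γ q ω α β → ∀ i₀, A i₀ ≠ 0 → (∃ j, m j i₀ = 0) →
    b.eval (-(1 / (A i₀ : ℂ))) = 0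

/-- (EROOT) the root given by the factor `(∑ c_j x ^ m_j) ^ e`. -/
def S_ERoot : Prop :=
  ∀ {n k : ℕ} (A : Fin n → ℕ) (m : Fin k → Fin n → ℕ) (e : ℕ) (b : Polynomial ℂ) {L' L : ℕ}
    (ac : Fin L' → ℂ) (γ : Fin L' → Fin k → ℤ)
    (q : Fin L → Polynomial ℂ) (ω : Fin L → Fin k → ℤ) (α β : Fin L → Fin n → ℕ), 0 < e →
    Ident A m e b ac γ q ω α β → ∀ u : Fin n → ℕ, (∀ i, 0 < u i) → 2 ≤ (amin m u).card →
    b.eval (-(1 / (e : ℂ))) = 0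

/-- (ROOTL) roots of the local Bernstein-Sato polynomial at the origin. -/
def S_RootL : Prop :=
  ∀ {n k : ℕ} (A : Fin n → ℕ) (m : Fin k → Fin n → ℕ) (c : Fin k → ℂ) (e : ℕ),
    AffInd m → (∀ j, c j ≠ 0) → 0 < k → 0 < e → (∀ i, A i ≠ 0 ∨ ∀ j, m j i ≠ 1) →
    constantCoeff (sp A m c e) = 0 →
    ∀ b : Polynomial ℂ, IsLocalBFunction (sp A m c e) b →
    (∀ u : Fin n → ℕ, (∀ i, 0 < u i) → 2 ≤ (amin m u).card → b.eval (-(1 / (e : ℂ))) = 0) ∧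
    ∀ a : Fin n → ℕ, IsRay m a → 0 < ford A m e a →
      b.eval (-(((∑ i, a i : ℕ) : ℂ) / ford A m e a)) = 0

/-! ### Jets -/

/-- The `N`-jets `ψ` of `X = 𝔸 ^ n` with `ψ(0) = x` and `ord_t f(ψ) = N`. -/
def JetN {K : Type} [Field K] {n : ℕ} (f : MvPolynomial (Fin n) K) (x : Fin n → K) (N : ℕ) :
    Set (Pt K (Fin n × Fin (N + 1))) :=
  {z | (∀ i, z (i, 0) = algebraMap K (AlgebraicClosure K) (x i)) ∧
    (∀ j < N, PowerSeries.coeff j (aeval (arc z) f) = 0) ∧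
    PowerSeries.coeff N (aeval (arc z) f) ≠ 0}

/-- The naive local motivic zeta function
`Z_{mot,x,f}(T) = 𝕃 ^ (-n) ∑_{N ≥ 1} [𝒳_N] 𝕃 ^ (- n N) T ^ N`. -/
noncomputable def zetaN {K : Type} [Field K] {n : ℕ} (f : MvPolynomial (Fin n) K)
    (x : Fin n → K) : PowerSeries (MK K) :=
  PowerSeries.C (((Lu K) ^ (-(n : ℤ)) : (MK K)ˣ) : MK K) * PowerSeries.mk fun N =>
    if N = 0 then 0 else
    algebraMap (K0 K) (MK K) (cls (Fin n × Fin (N + 1)) (JetN f x N)) *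
      (((Lu K) ^ (-((n * N : ℕ) : ℤ)) : (MK K)ˣ) : MK K)

section Strata

variable {K : Type} [Field K] {n r : ℕ}

/-- The jets of level `2 N + 1` with origin `x`, with `ord_t f(ψ) = N` and with
orders `u` (`u i = N + 1` means order at least `N + 1`). -/
def stratN (f : MvPolynomial (Fin n) K) (x : Fin n → K) (N : ℕ) (u : Fin n → ℕ) :
    Set (Pt K (Fin n × Fin (2 * N + 1 + 1))) :=
  {z | (∀ i, z (i, 0) = algebraMap K _ (x i)) ∧
    (∀ i, (∀ j < u i, PowerSeries.coeff j (arc z i) = 0) ∧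
      (u i ≤ N → PowerSeries.coeff (u i) (arc z i) ≠ 0)) ∧
    (∀ j < N, PowerSeries.coeff j (aeval (arc z) f) = 0) ∧
    PowerSeries.coeff N (aeval (arc z) f) ≠ 0}

/-- The base of the strata of type `τ` on which the order of `∑ c_j x ^ m_j` is the expected one;
the free coordinates are normalised to `1`. -/
def B0N (A : Fin n → ℕ) (m : Fin r → Fin n → ℕ) (c : Fin r → K) (e : ℕ) (x : Fin n → K)
    (J : Finset (Fin n)) (τ : Finset (Fin r)) : Set (Pt K (Fin n)) :=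
  {z | (∀ i, i ∉ J → z i = algebraMap K _ (x i)) ∧ (∀ i ∈ J, z i ≠ 0) ∧
    (∀ i ∈ free A m J τ, z i = 1) ∧ (∏ i, z i ^ A i) * gbar m (cb c) τ z ^ e ≠ 0}

/-- The base of the strata of type `τ` on which the order of `∑ c_j x ^ m_j` is larger. -/
def B1N (A : Fin n → ℕ) (m : Fin r → Fin n → ℕ) (c : Fin r → K) (e : ℕ) (x : Fin n → K)
    (J : Finset (Fin n)) (τ : Finset (Fin r)) : Set (Pt K (Option (Fin n))) :=
  {z | (∀ i, i ∉ J → z (some i) = algebraMap K _ (x i)) ∧ (∀ i ∈ J, z (some i) ≠ 0) ∧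
    (∀ i ∈ free A m J τ, z (some i) = 1) ∧ gbar m (cb c) τ (fun i => z (some i)) = 0 ∧
    (∏ i, z (some i) ^ A i) * z none ^ e ≠ 0}

end Strata

/-- (JETN) partition of the jets by the orders of the coordinates. -/
def S_JetN : Prop :=
  ∀ {K : Type} [Field K] {R : Type} [CommRing R] (M : Meas K R) {n : ℕ}
    (f : MvPolynomial (Fin n) K) (x : Fin n → K) (J : Finset (Fin n)),
    (∀ i, i ∈ J ↔ x i = 0) → ∀ N : ℕ, 1 ≤ N →
    M.χ (Fin n × Fin (N + 1)) (JetN f x N) * M.L ^ (n * (N + 1)) =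
      ∑ u ∈ (Fintype.piFinset fun _ : Fin n => Finset.range (N + 2)).filter (Adm J),
        M.χ (Fin n × Fin (2 * N + 1 + 1)) (stratN f x N u)

/-- (SHIFTN) `z_i = t ^ (u i) y_i`. -/
def S_ShiftN : Prop :=
  ∀ {K : Type} [Field K] {R : Type} [CommRing R] (M : Meas K R) {n : ℕ}
    (f : MvPolynomial (Fin n) K) (x : Fin n → K) (J : Finset (Fin n)),
    (∀ i, i ∈ J ↔ x i = 0) → ∀ N : ℕ, 1 ≤ N → ∀ u : Fin n → ℕ, Adm J u → (∀ i, u i ≤ N + 1) →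
    M.χ _ (stratN f x N u) =
      M.χ _ (Y0 x N u ∩ {y | (∀ j < N, PowerSeries.coeff j
          (aeval (fun i => PowerSeries.X ^ u i * arc y i) f) = 0) ∧
        PowerSeries.coeff N (aeval (fun i => PowerSeries.X ^ u i * arc y i) f) ≠ 0})

/-- (CONDN) the condition on `y`. -/
def S_CondN : Prop :=
  ∀ {K : Type} [Field K] [CharZero K] {n r : ℕ} (A : Fin n → ℕ) (m : Fin r → Fin n → ℕ)
    (c : Fin r → K) (e : ℕ) (x : Fin n → K) (J : Finset (Fin n)), (∀ i, i ∈ J ↔ x i = 0) →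
    0 < r → 0 < e → ∀ N : ℕ, 1 ≤ N → ∀ u : Fin n → ℕ, Adm J u → (∀ i, u i ≤ N + 1) →
    ∀ y ∈ Y0 x N u,
      (((∀ j < N, PowerSeries.coeff j
          (aeval (fun i => PowerSeries.X ^ u i * arc y i) (sp A m c e)) = 0) ∧
        PowerSeries.coeff N (aeval (fun i => PowerSeries.X ^ u i * arc y i) (sp A m c e)) ≠ 0) ↔
        ∃ l, ford A m e u + e * l = N ∧
          (∀ k < l, PowerSeries.coeff k (gser m (cb c) (del m u) (arc y)) = 0) ∧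
          (∏ i, y (i, 0) ^ A i) *
            (PowerSeries.coeff l (gser m (cb c) (del m u) (arc y))) ^ e ≠ 0)

/-- (STBN) the strata with `l = 0`. -/
def S_StBN : Prop :=
  ∀ {K : Type} [Field K] [CharZero K] {R : Type} [CommRing R] (M : Meas K R) {n r : ℕ}
    (A : Fin n → ℕ) (m : Fin r → Fin n → ℕ) (c : Fin r → K) (e : ℕ) (x : Fin n → K)
    (J : Finset (Fin n)), (∀ i, i ∈ J ↔ x i = 0) → AffInd m → (∀ j, c j ≠ 0) →
    0 < r → 0 < e → ∀ N : ℕ, 1 ≤ N → ∀ u : Fin n → ℕ, Adm J u → (∀ i, u i ≤ N + 1) →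
    ford A m e u = N →
    M.χ _ (Y0 x N u ∩ {y | (∏ i, y (i, 0) ^ A i) *
        (PowerSeries.coeff 0 (gser m (cb c) (del m u) (arc y))) ^ e ≠ 0}) =
      M.χ _ (B0N A m c e x J (amin m u)) *
        (M.L - 1) ^ ((free A m J (amin m u)).filter fun i => u i ≤ N).card *
        M.L ^ ((free A m J (amin m u)).filter fun i => ¬ u i ≤ N).card *
        M.L ^ (∑ i, (2 * N + 1 - u i))

/-- (STCN) the strata with `l ≥ 1`. -/
def S_StCN : Prop :=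
  ∀ {K : Type} [Field K] [CharZero K] {R : Type} [CommRing R] (M : Meas K R) {n r : ℕ}
    (A : Fin n → ℕ) (m : Fin r → Fin n → ℕ) (c : Fin r → K) (e : ℕ) (x : Fin n → K)
    (J : Finset (Fin n)), (∀ i, i ∈ J ↔ x i = 0) → AffInd m → (∀ j, c j ≠ 0) →
    0 < r → 0 < e → ∀ N : ℕ, 1 ≤ N → ∀ u : Fin n → ℕ, Adm J u → (∀ i, u i ≤ N + 1) →
    ∀ l : ℕ, 1 ≤ l → ford A m e u + e * l = N →
    M.χ _ (Y0 x N u ∩ {y |
        (∀ k < l, PowerSeries.coeff k (gser m (cb c) (del m u) (arc y)) = 0) ∧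
        (∏ i, y (i, 0) ^ A i) *
          (PowerSeries.coeff l (gser m (cb c) (del m u) (arc y))) ^ e ≠ 0}) * M.L ^ l =
      M.χ _ (B1N A m c e x J (amin m u)) *
        (M.L - 1) ^ ((free A m J (amin m u)).filter fun i => u i ≤ N).card *
        M.L ^ ((free A m J (amin m u)).filter fun i => ¬ u i ≤ N).card *
        M.L ^ (∑ i, (2 * N + 1 - u i))

/-- (SUMN) the class of the jets. -/
def S_SumN : Prop :=
  ∀ {K : Type} [Field K] [CharZero K] {R : Type} [CommRing R] (M : Meas K R) {n r : ℕ}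
    (A : Fin n → ℕ) (m : Fin r → Fin n → ℕ) (c : Fin r → K) (e : ℕ) (x : Fin n → K)
    (J : Finset (Fin n)), (∀ i, i ∈ J ↔ x i = 0) → AffInd m → (∀ j, c j ≠ 0) →
    0 < r → 0 < e → ∀ Y : R, M.L * Y = 1 → ∀ N : ℕ, 1 ≤ N →
    M.χ _ (JetN (sp A m c e) x N) * Y ^ (n * N) =
      ∑ τ : Finset (Fin r), M.L ^ (free A m J τ).card *
        (M.χ _ (B0N A m c e x J τ) * Polynomial.eval₂ (Int.castRingHom R) Y (cp A m e J τ N N) +
          ∑ l ∈ Finset.Icc 1 N, if e * l ≤ N then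
            M.χ _ (B1N A m c e x J τ) * Y ^ l *
              Polynomial.eval₂ (Int.castRingHom R) Y (cp A m e J τ N (N - e * l)) else 0)

/-- (FINN) the final statement. -/
def S_FINN : Prop :=
  ∀ (k K : Type) [Field k] [Algebra k ℂ] [Field K] [Algebra k K] {n r : ℕ} (A : Fin n → ℕ)
    (m : Fin r → Fin n → ℕ) (c : Fin r → k) (e : ℕ),
    AffInd m → (∀ j, c j ≠ 0) → 0 < r → 0 < e → (∀ i, A i ≠ 0 ∨ ∀ j, m j i ≠ 1) →
    constantCoeff (sp A m c e) = 0 →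
    ∃ S : Finset (ℤ × ℤ),
      (∀ p ∈ S, p.1 < 0 ∧ 0 < p.2 ∧ ∀ b : Polynomial ℂ,
        IsLocalBFunction (sp A m (fun j => algebraMap k ℂ (c j)) e) b →
          b.eval ((p.1 : ℂ) / p.2) = 0) ∧
      zetaN (sp A m (fun j => algebraMap k K (c j)) e) 0 ∈ ratRing K S

end Pool.Agent.W749.NM
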