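import Pool.Agent.W749.NM.Stm
import Pool.Agent.W425.SL.Final

/-!
# Project NM, part ROOTL: roots of the local Bernstein-Sato polynomial
-/

set_option autoImplicit false

namespace Pool.Agent.W749.NM.RootL

open MvPolynomial
open Pool.Agent.W428.MOT Pool.Agent.W749.NM
open Pool.Agent.W426.SM (AffInd gord ford IsRay face)
open Pool.Agent.H628R4.TP (IsLocalBFunction)

theorem sp_ne {n k : ℕ} (A : Fin n → ℕ) (m : Fin k → Fin n → ℕ) (hm : AffInd m) (c : Fin k → ℂ)
    (hc : ∀ j, c j ≠ 0) (hk : 0 < k) (e : ℕ) : sp A m c e ≠ 0 := by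
  classical
  unfold sp
  refine mul_ne_zero (Finset.prod_ne_zero_iff.2 fun i _ => pow_ne_zero _ (X_ne_zero i))
    (pow_ne_zero _ ?_)
  intro h0
  set j0 : Fin k := ⟨0, hk⟩ with hj0
  have hinj : Function.Injective (fun (j : Fin k) (i : Fin n) => (m j i : ℚ)) := hm.injective
  have h1 : ∀ j, (C (c j) * ∏ i, X i ^ m j i : MvPolynomial (Fin n) ℂ) =
      monomial (Finsupp.equivFunOnFinite.symm (m j)) (c j) := by
    intro j
    rw [monomial_eq, Finsupp.prod_fintype _ _ (by simp)]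
    rfl
  have h2 := congrArg (coeff (Finsupp.equivFunOnFinite.symm (m j0))) h0
  rw [coeff_zero, coeff_sum, Finset.sum_eq_single j0] at h2
  · rw [h1, coeff_monomial, if_pos rfl] at h2
    exact hc j0 h2
  · intro j _ hj
    rw [h1, coeff_monomial, if_neg]
    intro h
    apply hj
    have h3 := Finsupp.equivFunOnFinite.symm.injective h
    refine hinj ?_
    funext i
    show ((m j i : ℕ) : ℚ) = ((m j0 i : ℕ) : ℚ)
    rw [congrFun h3 i]
  · intro h
    exact absurd (Finset.mem_univ _) h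

theorem main (h1 : S_RAL) (h2 : S_RCore) (h3 : S_Chamber) (h4 : S_RLL) (h5 : S_Coord)
    (h6 : S_ERoot) : S_RootL := by
  intro n k A m c e hm hc hk he hA hf0 b hb
  have hU : IsUnitB (sp A m c e) b :=
    (Pool.Agent.W368.SL.taskL1 (sp A m c e) b (sp_ne A m hm c hc hk e) hf0
      (Pool.Agent.W425.SL.toSL hb)).2
  obtain ⟨L', L, ac, γ, q, ω, α, β, hI⟩ := h1 A m c e hm hc hk he b hU
  refine ⟨fun u hu hu2 => h6 A m e b ac γ q ω α β he hI u hu hu2, fun a ha hford => ?_⟩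
  obtain ⟨u, hu, hR⟩ := h3 m a hk ha
  rcases h4 A m e a (amin m u) he hA hR hford with ⟨i₀, h7, h8, h9⟩ | h
  · have h10 := h5 A m e b ac γ q ω α β he hI i₀ h7 h8
    have h11 : (((∑ i, a i : ℕ) : ℂ) / ford A m e a) = 1 / (A i₀ : ℂ) := by
      have h12 : (ford A m e a : ℂ) ≠ 0 := by exact_mod_cast hford.ne'
      have h13 : (A i₀ : ℂ) ≠ 0 := by exact_mod_cast h7
      rw [div_eq_div_iff h12 h13, one_mul]
      exact_mod_cast h9
    rw [h11]
    exact h10
  · obtain ⟨t₀, Λ, p, g1, g2, g3, g4, g5, g6⟩ := h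
    exact h2 A m e a u he hu hR hford t₀ Λ p g1 g2 g3 g4 g5 g6 b ac γ q ω α β hI

end Pool.Agent.W749.NM.RootL
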