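import Pool.Agent.W749.NM.StBN
import Pool.Agent.W749.NM.StCN
import Pool.Agent.W749.NM.RootL
import Pool.Agent.W125.NMRAL
import Pool.Agent.W505.NMRCW
import Pool.Agent.W347.NMChamber
import Pool.Agent.W762.NMRLL
import Pool.Agent.W21.NM.Roots
import Pool.Agent.W571.NMJet
import Pool.Agent.W930.NMCondN
import Pool.Agent.W479.NMSum
import Pool.Agent.W349.NMRCore
import Pool.Agent.W349.NMFin
import Pool.Agent.W417.MT.K0
import Pool.Agent.W417.MT.Free
import Pool.Agent.W21.MTSub
import Pool.Agent.W440.MT.OrdNon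
import Pool.Agent.W417.MT.Tay
import Pool.Agent.W346.MTCp1
import Pool.Agent.W346.MTCp2
import Pool.Agent.W29.MTRat
import Pool.Agent.W230.MTZCF

/-!
# Assembly of the project NM
-/

set_option autoImplicit false

namespace Pool.Agent.W749.NM

open Pool.Agent.W428.MOT

theorem sStBN : S_StBN := StBN.main Pool.Agent.W417.MT.Free.main Pool.Agent.W417.MT.Tay.main

theorem sStCN : S_StCN := StCN.main Pool.Agent.W417.MT.Free.main
  Pool.Agent.W21.MTSub.main Pool.Agent.W417.MT.Tay.main Pool.Agent.W440.MT.non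

theorem sSumN : S_SumN := Pool.Agent.W479.NMSum.main
  (Pool.Agent.W571.NMJet.jet Pool.Agent.W417.MT.Free.main) Pool.Agent.W571.NMJet.shift
  Pool.Agent.W930.NMCondN.main sStBN sStCN

theorem sRAT : S_RAT := Pool.Agent.W29.MTRat.main Pool.Agent.W346.MTCp2.main
  Pool.Agent.W230.MTZCF.main

theorem sRCore : S_RCore := Pool.Agent.W349.NMRCore.main Pool.Agent.W505.NMRCW.main

theorem sRootL : S_RootL := RootL.main Pool.Agent.W125.NMRAL.main sRCore
  Pool.Agent.W347.NMChamber.main Pool.Agent.W762.NMRLL.main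
  Pool.Agent.W21.NM.coord Pool.Agent.W21.NM.eroot

theorem sFINN : S_FINN := Pool.Agent.W349.NMFin.main Pool.Agent.W417.MT.K0.main sSumN sRAT
  sRootL Pool.Agent.W346.MTCp1.main

end Pool.Agent.W749.NM
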